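import Mathlib

open MeasureTheory Set Filter Topology

namespace Pool.Agent.V11111.BG

/-- `ε` (indexed from `0`) is an expansion of `x` in base `β` with digits `0, …, ⌈β⌉ - 1`. -/
def IsExp (β x : ℝ) (ε : ℕ → ℕ) : Prop :=
  (∀ i, ε i < ⌈β⌉₊) ∧ HasSum (fun i => (ε i : ℝ) / β ^ (i + 1)) x

/-- The digit `k` has frequency `l` in `ε`. -/
def HasFreq (ε : ℕ → ℕ) (k : ℕ) (l : ℝ) : Prop :=
  Tendsto (fun n : ℕ => (((Finset.range n).filter fun i => ε i = k).card : ℝ) / n) atTop (𝓝 l)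

/-- `β` is an almost variational frequency base. -/
def AlmostVariational (β : ℝ) : Prop :=
  ∃ c > 0, ∀ p : Fin ⌈β⌉₊ → ℝ, (∀ j, |p j - 1 / ⌈β⌉₊| ≤ c) → ∑ j, p j = 1 →
    ∀ᵐ x ∂(volume.restrict (Icc (0 : ℝ) ((⌈β⌉₊ - 1) / (β - 1)))),
      ∃ ε : ℕ → ℕ, IsExp β x ε ∧ ∀ j : Fin ⌈β⌉₊, HasFreq ε j (p j)

end Pool.Agent.V11111.BG
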