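import Pool.Agent.V11111.BG.Path
import Pool.Agent.V11111.BG.Defs

open MeasureTheory Set Filter Topology
open scoped ENNReal

namespace Pool.Agent.V11111.BG

open Pool.Agent.V11111.BE

noncomputable section

/-- mean length of a letter -/
def ell : ℝ := 2 * p + 4 * p ^ 2

lemma int_len : ∫ ω, (fun a => (len a : ℝ)) (X ω) ∂P = ell := by
  have e := integral_map (μ := P) X_meas.aemeasurable (f := fun a : Fin 4 => (len a : ℝ))
    (measurable_of_countable _).aestronglyMeasurable
  refine e.symm.trans ?_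
  have hprob : IsProbabilityMeasure (Measure.map X P) :=
    Measure.isProbabilityMeasure_map X_meas.aemeasurable
  rw [integral_fintype Integrable.of_finite]
  have h : ∀ a, (Measure.map X P).real {a} = (q a).toReal := by
    intro a
    rw [Measure.real, Measure.map_apply X_meas (MeasurableSet.singleton a), P_X]
  simp only [h, Fin.sum_univ_four]
  obtain ⟨h0, h1, h2, h3⟩ := q_real
  rw [h0, h1, h2, h3]
  show p • ((1 : ℕ) : ℝ) + p • ((1 : ℕ) : ℝ) + p ^ 2 • ((2 : ℕ) : ℝ) + p ^ 2 • ((2 : ℕ) : ℝ) = ell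
  simp only [smul_eq_mul]
  push_cast
  unfold ell
  ring

lemma nl_sum (z : ℝ) (n : ℕ) : (nl z n : ℝ) = ∑ i ∈ Finset.range n, (len (X (R^[i] z)) : ℝ) := by
  induction n with
  | zero => simp [nl]
  | succ n ih =>
    rw [Finset.sum_range_succ, ← ih]
    show ((nl z n + len (X (R^[n] z)) : ℕ) : ℝ) = _
    push_cast
    rfl

lemma ae_len : ∀ᵐ z ∂P, Tendsto (fun n : ℕ => (nl z n : ℝ) / n) atTop (𝓝 ell) := by
  have h := strong X_meas R_meas key (fun a => (len a : ℝ)) (by
    have h1 : Measurable fun ω => (fun a => (len a : ℝ)) (X ω) :=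
      (measurable_of_countable (fun a : Fin 4 => (len a : ℝ))).comp X_meas
    refine (integrable_const (2 : ℝ)).mono' h1.aestronglyMeasurable ?_
    refine Filter.Eventually.of_forall fun ω => ?_
    show ‖((len (X ω) : ℕ) : ℝ)‖ ≤ 2
    rw [Real.norm_of_nonneg (Nat.cast_nonneg _)]
    have : ∀ a : Fin 4, len a ≤ 2 := by decide
    exact_mod_cast this (X ω))
  filter_upwards [h] with z hz
  rw [int_len] at hz
  refine hz.congr fun n => ?_
  rw [nl_sum]

open Classical in
/-- indicator of a visit -/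
def fv (k : ℕ) (z : ℝ) (i : ℕ) : ℝ := if R^[i] z ∈ G k then 1 else 0

open Classical in
lemma ae_block (k : ℕ) : ∀ᵐ z ∂P, Tendsto (fun n : ℕ =>
    (∑ i ∈ Finset.range n, fv k z ((2 * k + 1) * i)) / n) atTop (𝓝 (P (G k)).toReal) := by
  set N := 2 * k + 1 with hN
  have hGm := (dep_G k).meas
  set X' : ℝ → Bool := fun z => decide (z ∈ G k) with hX'
  have ht : X' ⁻¹' {true} = G k := by
    ext z; simp [hX']
  have hf : X' ⁻¹' {false} = (G k)ᶜ := by
    ext z; simp [hX']
  have hX'm : Measurable X' := by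
    apply measurable_to_countable'
    intro a
    rcases a with _ | _
    · rw [hf]; exact hGm.compl
    · rw [ht]; exact hGm
  have h := strong (P := P) (X := X') (R := R^[N]) (p := fun a => P (X' ⁻¹' {a})) hX'm
    (iter_meas N) (by
      intro a B hB
      rcases a with _ | _
      · rw [hf]; exact (dep_G k).compl.fac B hB
      · rw [ht]; exact (dep_G k).fac B hB) (fun a => if a = true then (1 : ℝ) else 0) (by
      have h1 : Measurable fun ω => (fun a => if a = true then (1 : ℝ) else 0) (X' ω) :=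
        (measurable_of_countable (fun a : Bool => if a = true then (1 : ℝ) else 0)).comp hX'm
      refine (integrable_const (1 : ℝ)).mono' h1.aestronglyMeasurable ?_
      refine Filter.Eventually.of_forall fun ω => ?_
      show ‖if X' ω = true then (1 : ℝ) else 0‖ ≤ 1
      split_ifs <;> simp)
  have hint : ∫ ω, (fun a => if a = true then (1 : ℝ) else 0) (X' ω) ∂P = (P (G k)).toReal := by
    have e : (fun ω => (fun a => if a = true then (1 : ℝ) else 0) (X' ω))
        = (G k).indicator (fun _ => (1 : ℝ)) := by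
      funext ω
      by_cases hω : ω ∈ G k
      · rw [indicator_of_mem hω]
        simp [hX', hω]
      · rw [indicator_of_notMem hω]
        simp [hX', hω]
    rw [e, integral_indicator hGm]
    simp [Measure.real]
  filter_upwards [h] with z hz
  rw [hint] at hz
  refine hz.congr fun n => ?_
  congr 1
  apply Finset.sum_congr rfl
  intro i _
  show (if X' ((R^[N])^[i] z) = true then (1 : ℝ) else 0) = if R^[N * i] z ∈ G k then 1 else 0
  rw [Function.iterate_mul]
  simp [hX']

lemma sum_block (f : ℕ → ℝ) (N n : ℕ) : ∑ j ∈ Finset.range (N * n), f j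
    = ∑ s ∈ Finset.range N, ∑ i ∈ Finset.range n, f (N * i + s) := by
  induction n with
  | zero => simp
  | succ n ih =>
    rw [mul_add, mul_one, Finset.sum_range_add, ih, ← Finset.sum_add_distrib]
    apply Finset.sum_congr rfl
    intro s _
    rw [Finset.sum_range_succ]

lemma ae_vis (k : ℕ) : ∀ᵐ z ∂P, Tendsto (fun n : ℕ => (vis k z ((2 * k + 1) * n) : ℝ) / n) atTop
    (𝓝 ((2 * k + 1 : ℕ) * (P (G k)).toReal)) := by
  classical
  have h1 : ∀ᵐ z ∂P, ∀ s : ℕ, Tendsto (fun n : ℕ =>
      (∑ i ∈ Finset.range n, fv k (R^[s] z) ((2 * k + 1) * i)) / n) atTop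
        (𝓝 (P (G k)).toReal) := by
    rw [ae_all_iff]
    intro s
    exact (mp.iterate s).quasiMeasurePreserving.ae (ae_block k)
  filter_upwards [h1] with z hz
  have h2 : Tendsto (fun n : ℕ => ∑ s ∈ Finset.range (2 * k + 1),
      (∑ i ∈ Finset.range n, fv k (R^[s] z) ((2 * k + 1) * i)) / n) atTop
      (𝓝 (∑ s ∈ Finset.range (2 * k + 1), (P (G k)).toReal)) :=
    tendsto_finsetSum _ fun s _ => hz s
  rw [Finset.sum_const, Finset.card_range, nsmul_eq_mul] at h2
  refine h2.congr fun n => ?_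
  have e : (vis k z ((2 * k + 1) * n) : ℝ) = ∑ j ∈ Finset.range ((2 * k + 1) * n), fv k z j := by
    unfold vis fv
    push_cast
    rfl
  rw [e, sum_block, Finset.sum_div]
  apply Finset.sum_congr rfl
  intro s _
  congr 1
  apply Finset.sum_congr rfl
  intro i _
  unfold fv
  rw [← Function.iterate_add_apply]

lemma nl_ge (z : ℝ) (n : ℕ) : n ≤ nl z n := by
  induction n with
  | zero => exact Nat.zero_le _
  | succ n ih =>
    show n + 1 ≤ nl z n + len (X (R^[n] z))
    have : ∀ a : Fin 4, 1 ≤ len a := by decide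
    have := this (X (R^[n] z))
    omega

/-- every expansion of a typical point of the unit interval has at least a third of ones -/
theorem third : ∀ᵐ z ∂P, ∀ (ε : ℕ → ℕ) (l : ℝ), Ex z ε → HasFreq ε 1 l → 1 / 3 ≤ l := by
  have h1 : ∀ᵐ z ∂P, ∀ k, Tendsto (fun n : ℕ => (vis k z ((2 * k + 1) * n) : ℝ) / n) atTop
    (𝓝 ((2 * k + 1 : ℕ) * (P (G k)).toReal)) := by
    rw [ae_all_iff]
    exact ae_vis
  have h0 : ∀ᵐ z ∂P, z ∈ Ico (0 : ℝ) 1 := ae_restrict_mem measurableSet_Ico
  filter_upwards [h0, h1, ae_len] with z hz hv hl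
  intro ε l hε hf
  have hst : St z z ε := ⟨hz, hε, Or.inl (sub_self z)⟩
  have hkey : ∀ k, (P (G k)).toReal ≤ l * ell := by
    intro k
    set N := 2 * k + 1 with hN
    have hN0 : (0 : ℝ) < N := by rw [hN]; positivity
    have hNtop : Tendsto (fun n : ℕ => N * n) atTop atTop := by
      apply tendsto_atTop_mono (f := fun n => n)
      · intro n
        have : 1 * n ≤ N * n := Nat.mul_le_mul_right n (by omega)
        omega
      · exact tendsto_id
    have hnl : Tendsto (nl z) atTop atTop := tendsto_atTop_mono (nl_ge z) tendsto_id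
    have a1 : Tendsto (fun n : ℕ => (cnt ε 1 (nl z (N * n)) : ℝ) / nl z (N * n)) atTop (𝓝 l) :=
      (hf.comp hnl).comp hNtop
    have a2 : Tendsto (fun n : ℕ => (nl z (N * n) : ℝ) / ((N * n : ℕ) : ℝ)) atTop (𝓝 ell) :=
      hl.comp hNtop
    have a3 := ((a1.mul a2).mul_const (N : ℝ))
    have a4 := hv k
    have a5 : (N : ℝ) * (P (G k)).toReal ≤ l * ell * N := by
      refine le_of_tendsto_of_tendsto a4 a3 ?_
      filter_upwards [Filter.eventually_gt_atTop 0] with n hn
      have hn' : (0 : ℝ) < n := by exact_mod_cast hn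
      have h2 : (0 : ℝ) < nl z (N * n) := by
        have h3 := nl_ge z (N * n)
        have h4 : 0 < N * n := Nat.mul_pos (by omega) hn
        exact_mod_cast lt_of_lt_of_le h4 h3
      have h5 : (vis k z (N * n) : ℝ) ≤ cnt ε 1 (nl z (N * n)) := by
        exact_mod_cast (count_ge k hst (N * n)).2
      have e : (cnt ε 1 (nl z (N * n)) : ℝ) / nl z (N * n) *
          ((nl z (N * n) : ℝ) / ((N * n : ℕ) : ℝ)) * N = (cnt ε 1 (nl z (N * n)) : ℝ) / n := by
        push_cast
        field_simp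
      rw [e]
      exact div_le_div_of_nonneg_right h5 hn'.le
    have a6 : (P (G k)).toReal * N ≤ l * ell * N := by linarith
    exact le_of_mul_le_mul_right a6 hN0
  have hlim : Tendsto (fun k => (P (G k)).toReal) atTop
      (𝓝 ((p + p ^ 2) * (1 - p ^ 2 / (1 - p ^ 2)))) := by
    have h2 := (t_lim.const_sub 1).const_mul (p + p ^ 2)
    exact h2.congr fun k => (P_G k).symm
  have hle := le_of_tendsto' hlim hkey
  obtain ⟨hp, hp2⟩ := p_bd
  obtain ⟨e1, e2⟩ := p_sq
  have h3 : √3 * √3 = 3 := Real.mul_self_sqrt (by norm_num)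
  have hs : p + p ^ 2 = 1 / 2 := by rw [e1, e2]; ring
  have hq : 4 * (p ^ 2) ^ 2 - 8 * p ^ 2 + 1 = 0 := by rw [e1]; nlinarith
  have hell : ell = 1 + 2 * p ^ 2 := by
    unfold ell
    linarith
  have hval : (p + p ^ 2) * (1 - p ^ 2 / (1 - p ^ 2)) = ell / 3 := by
    have hne : 1 - p ^ 2 ≠ 0 := by linarith
    rw [hs, hell]
    field_simp
    nlinarith
  rw [hval] at hle
  have hell0 : 0 < ell := by rw [hell]; positivity
  have h4 : 1 / 3 * ell ≤ l * ell := by linarith
  exact le_of_mul_le_mul_right h4 hell0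

lemma ceil_b : ⌈(1 : ℝ) + √3⌉₊ = 3 := by
  rw [Nat.ceil_eq_iff (by norm_num)]
  have h1 := b_gt
  have h2 := b_lt
  unfold b at h1 h2
  constructor
  · norm_num
    linarith
  · norm_num
    linarith

theorem not_av : ¬ AlmostVariational (1 + √3) := by
  rintro ⟨c, hc, h⟩
  have h1 := b_gt
  have h2 := b_lt
  unfold b at h1 h2
  have hc3 : ((⌈(1 : ℝ) + √3⌉₊ : ℕ) : ℝ) = 3 := by rw [ceil_b]; norm_num
  set δ := min c (1 / 3) with hδ
  have hδ0 : 0 < δ := lt_min hc (by norm_num)
  have hδc : δ ≤ c := min_le_left _ _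
  have h3 := h (fun j => if (j : ℕ) = 1 then 1 / 3 - δ else 1 / 3 + δ / 2) (by
    intro j
    rw [hc3]
    split_ifs
    · rw [show 1 / 3 - δ - 1 / 3 = -δ by ring, abs_neg, abs_of_pos hδ0]
      exact hδc
    · rw [show 1 / 3 + δ / 2 - 1 / 3 = δ / 2 by ring, abs_of_pos (by linarith)]
      linarith) (by
    rw [Fin.sum_univ_eq_sum_range (fun i => if i = 1 then 1 / 3 - δ else 1 / 3 + δ / 2)
      ⌈(1 : ℝ) + √3⌉₊, ceil_b]
    rw [Finset.sum_range_succ, Finset.sum_range_succ, Finset.sum_range_one]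
    norm_num
    ring)
  rw [hc3] at h3
  have hsub : Ico (0 : ℝ) 1 ⊆ Icc (0 : ℝ) (((3 : ℝ) - 1) / (1 + √3 - 1)) := by
    intro x hx
    refine ⟨hx.1, ?_⟩
    have h4 : (1 : ℝ) ≤ ((3 : ℝ) - 1) / (1 + √3 - 1) := by
      rw [le_div_iff₀ (by linarith)]
      linarith
    linarith [hx.2]
  have h5 := ae_restrict_of_ae_restrict_of_subset hsub h3
  have h6 : ∀ᵐ z ∂P, False := by
    filter_upwards [h5, third] with z hz ht
    obtain ⟨ε, ⟨hε1, hε2⟩, hf⟩ := hz
    have hj : 1 < ⌈(1 : ℝ) + √3⌉₊ := by rw [ceil_b]; norm_num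
    have h7 := hf ⟨1, hj⟩
    simp only [if_pos] at h7
    have h8 := ht ε (1 / 3 - δ) ⟨fun i => by
      have := hε1 i
      rw [ceil_b] at this
      omega, hε2⟩ h7
    linarith
  have h7 : (P : Measure ℝ) = 0 := by
    rw [← ae_eq_bot]
    exact Filter.eventually_false_iff_eq_bot.1 h6
  have h8 : P univ = 1 := measure_univ
  rw [h7] at h8
  simp at h8

theorem not_nat : 1 < (1 : ℝ) + √3 ∧ ∀ n : ℕ, (1 : ℝ) + √3 ≠ n := by
  have h1 := b_gt
  have h2 := b_lt
  unfold b at h1 h2
  refine ⟨by linarith, fun n hn => ?_⟩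
  rw [hn] at h1 h2
  have h3 : (2 : ℝ) < n := by linarith
  have h4 : (n : ℝ) < 3 := by linarith
  have h5 : 2 < n := by exact_mod_cast h3
  have h6 : n < 3 := by exact_mod_cast h4
  omega

end

end Pool.Agent.V11111.BG
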