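import Pool.Agent.V11111.BG.Sys

open MeasureTheory Set Filter Topology
open scoped ENNReal

namespace Pool.Agent.V11111.BG

open Pool.Agent.V11111.BE

noncomputable section

/-- expansions over the digits `0, 1, 2` in base `b` -/
def Ex (x : ℝ) (ε : ℕ → ℕ) : Prop :=
  (∀ i, ε i ≤ 2) ∧ HasSum (fun i => (ε i : ℝ) / b ^ (i + 1)) x

/-- tail -/
def tl (n : ℕ) (ε : ℕ → ℕ) : ℕ → ℕ := fun i => ε (n + i)

lemma Ex.tail {x : ℝ} {ε : ℕ → ℕ} (h : Ex x ε) : Ex (b * x - ε 0) (tl 1 ε) := by
  refine ⟨fun i => h.1 _, ?_⟩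
  have h1 := (hasSum_nat_add_iff' 1).2 h.2
  rw [Finset.sum_range_one] at h1
  have h2 := h1.mul_left b
  have hb := b_pos
  have e1 : (fun i => (tl 1 ε i : ℝ) / b ^ (i + 1))
      = fun i => b * ((ε (i + 1) : ℝ) / b ^ (i + 1 + 1)) := by
    funext i
    show (ε (1 + i) : ℝ) / b ^ (i + 1) = b * ((ε (i + 1) : ℝ) / b ^ (i + 1 + 1))
    rw [add_comm 1 i, pow_succ b (i + 1)]
    field_simp
  have e2 : b * x - ε 0 = b * (x - (ε 0 : ℝ) / b ^ (0 + 1)) := by
    rw [zero_add, pow_one]
    field_simp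
  rw [e1, e2]
  exact h2

lemma tl_tl (m n : ℕ) (ε : ℕ → ℕ) : tl m (tl n ε) = tl (n + m) ε := by
  funext i
  show ε (n + (m + i)) = ε (n + m + i)
  rw [add_assoc]

lemma Ex.bd {x : ℝ} {ε : ℕ → ℕ} (h : Ex x ε) : 0 ≤ x ∧ x < 1.17 := by
  have hb := b_pos
  have h1 := h.2.nonneg (fun i => by positivity)
  refine ⟨h1, ?_⟩
  have hg := (hasSum_geometric_of_lt_one (inv_nonneg.2 hb.le)
    (inv_lt_one_of_one_lt₀ (by linarith [b_gt] : 1 < b))).mul_left ((2 : ℝ) / b)
  have h2 : x ≤ 2 / b * (1 - b⁻¹)⁻¹ := by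
    refine hasSum_le (fun i => ?_) h.2 hg
    rw [inv_pow, ← div_eq_mul_inv, div_div, ← pow_succ']
    apply div_le_div_of_nonneg_right _ (pow_nonneg hb.le _)
    exact_mod_cast h.1 i
  have h3 : 2 / b * (1 - b⁻¹)⁻¹ = 2 / (b - 1) := by
    have : b - 1 ≠ 0 := by linarith [b_gt]
    have h4 : 1 - b⁻¹ = (b - 1) / b := by field_simp
    rw [h4, inv_div]
    field_simp
  rw [h3] at h2
  have h5 : 2 / (b - 1) < 1.17 := by
    rw [div_lt_iff₀ (by linarith [b_gt])]
    linarith [b_gt]
  linarith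

/-- allowed differences -/
def Df (y : ℝ) : Prop := y = 0 ∨ y = 1 ∨ y = b - 2

lemma bb : b * (b - 2) = 2 := by nlinarith [b_sq]

/-- one digit -/
lemma digit {y : ℝ} (hy : Df y) {g e : ℕ} (hg : g ≤ 2) (he : e ≤ 2)
    (h1 : -1 < b * y + g - e) (h2 : b * y + g - e < 1.17) :
    Df (b * y + g - e) ∧ (g = 1 → e ≠ 1 → b * y + g - e = 1) := by
  have hb := b_gt
  have hb' := b_lt
  have hbb := bb
  rcases hy with rfl | rfl | rfl
  · rw [mul_zero, zero_add] at *
    interval_cases g <;> interval_cases e <;> norm_num [Df] at * <;> try linarith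
  · rw [mul_one] at *
    interval_cases g <;> interval_cases e <;> norm_num [Df] at * <;> try linarith
  · rw [hbb] at *
    interval_cases g <;> interval_cases e <;> norm_num [Df] at * <;> try linarith

/-- difference one forces the continuation -/
lemma stA (k : ℕ) : ∀ (z x : ℝ) (ε : ℕ → ℕ), z ∈ Ico (0 : ℝ) 1 → Ex x ε → x - z = 1 →
    z ∈ E k := by
  have hb := b_gt
  have hb' := b_lt
  have hbb := bb
  have hb0 := b_pos
  have i1 : 0.36 < 1 / b := by rw [lt_div_iff₀ hb0]; linarith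
  have i2 : 0.72 < 2 / b := by rw [lt_div_iff₀ hb0]; linarith
  induction k with
  | zero => intro z x ε _ _ _; exact mem_univ _
  | succ k ih =>
    intro z x ε hz hx hd
    have hx1 := hx.bd
    have hX : X z = 0 := by
      unfold X
      rw [if_pos (by linarith)]
    have hR : R z = b * z := by
      unfold R
      rw [hX]
      show b * (z - 0) = b * z
      rw [sub_zero]
    have hz1 := R_mem hz
    rw [hR] at hz1
    have ht := hx.tail
    have ht1 := ht.bd
    have hε0 : ε 0 = 2 := by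
      have h3 := hx.1 0
      have h4 : x = z + 1 := by linarith
      rw [h4] at ht1
      interval_cases h : ε 0
      · norm_num at ht1; nlinarith [ht1.2, hz.1]
      · norm_num at ht1; nlinarith [ht1.2, hz.1]
      · rfl
    rw [hε0] at ht ht1
    have hx2 : b * x - ((2 : ℕ) : ℝ) = b * z + (b - 2) := by
      have h4 : x = z + 1 := by linarith
      rw [h4]; push_cast; ring
    rw [hx2] at ht ht1
    refine ⟨hX, ?_⟩
    show R z ∈ (X ⁻¹' {0} ∩ R ⁻¹' univ) ∪ (X ⁻¹' {1} ∩ R ⁻¹' (E k))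
    rw [hR]
    by_cases h5 : b * z < 1 / b
    · left
      refine ⟨?_, mem_univ _⟩
      show X (b * z) = 0
      unfold X
      rw [if_pos h5]
    · right
      push Not at h5
      have hX1 : X (b * z) = 1 := by
        unfold X
        rw [if_neg (not_lt.2 h5), if_pos (by linarith [ht1.2])]
      have hR1 : R (b * z) = b * (b * z) - 1 := by
        unfold R
        rw [hX1]
        show b * (b * z - 1 / b) = _
        rw [mul_sub, mul_one_div_cancel hb0.ne']
      refine ⟨hX1, ?_⟩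
      show R (b * z) ∈ E k
      have hz2 := R_mem hz1
      have ht2 := ht.tail
      have ht3 := ht2.bd
      have h6 : 1 ≤ b * (b * z) := by
        rw [div_le_iff₀ hb0] at h5
        linarith
      have h7 : b * (b * z + (b - 2)) = b * (b * z) + 2 := by rw [mul_add, hbb]
      have hε1 : tl 1 ε 0 = 2 := by
        have h3 := ht.1 0
        rw [h7] at ht3
        interval_cases h : tl 1 ε 0
        · norm_num at ht3; linarith [ht3.2]
        · norm_num at ht3; linarith [ht3.2]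
        · rfl
      rw [hε1, h7] at ht2
      refine ih (R (b * z)) _ _ hz2 ht2 ?_
      rw [hR1]
      push_cast
      ring

/-- state at a letter boundary -/
structure St (z x : ℝ) (ε : ℕ → ℕ) : Prop where
  hz : z ∈ Ico (0 : ℝ) 1
  hx : Ex x ε
  hd : Df (x - z)

lemma St.step {z x : ℝ} {ε : ℕ → ℕ} (h : St z x ε) {g : ℕ} (hg : g ≤ 2)
    (hz' : b * z - g ∈ Ico (0 : ℝ) 1) : St (b * z - g) (b * x - ε 0) (tl 1 ε) ∧
      (g = 1 → ε 0 ≠ 1 → (b * x - ε 0) - (b * z - g) = 1) := by
  have ht := h.hx.tail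
  have ht1 := ht.bd
  have e : (b * x - ε 0) - (b * z - g) = b * (x - z) + g - ε 0 := by ring
  have h1 := digit h.hd hg (h.hx.1 0) (by rw [← e]; linarith [hz'.2]) (by
    rw [← e]; linarith [hz'.1])
  rw [← e] at h1
  exact ⟨⟨hz', ht, h1.1⟩, h1.2⟩

lemma one_of {z x : ℝ} {ε : ℕ → ℕ} (h : St z x ε) (hz' : b * z - ((1 : ℕ) : ℝ) ∈ Ico (0 : ℝ) 1)
    {k : ℕ} (hk : b * z - ((1 : ℕ) : ℝ) ∉ E k) : ε 0 = 1 := by
  by_contra hne
  obtain ⟨h1, h2⟩ := h.step (by norm_num) hz'
  exact hk (stA k _ _ _ hz' h1.hx (h2 rfl hne))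

/-- total length of the first letters -/
def nl (z : ℝ) : ℕ → ℕ
  | 0 => 0
  | j + 1 => nl z j + len (X (R^[j] z))

open Classical in
/-- number of visits to `G k` -/
def vis (k : ℕ) (z : ℝ) (j : ℕ) : ℕ := ∑ i ∈ Finset.range j, if R^[i] z ∈ G k then 1 else 0

lemma letter {z x : ℝ} {ε : ℕ → ℕ} (h : St z x ε) : (X z = 0 ∧ R z = b * z - ((0 : ℕ) : ℝ)) ∨
    (X z = 1 ∧ R z = b * z - ((1 : ℕ) : ℝ)) ∨
    (X z = 2 ∧ b * z - ((2 : ℕ) : ℝ) ∈ Ico (0 : ℝ) 1 ∧
      R z = b * (b * z - ((2 : ℕ) : ℝ)) - ((0 : ℕ) : ℝ)) ∨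
    (X z = 3 ∧ b * z - ((2 : ℕ) : ℝ) ∈ Ico (0 : ℝ) 1 ∧
      R z = b * (b * z - ((2 : ℕ) : ℝ)) - ((1 : ℕ) : ℝ)) := by
  have hb0 := b_pos
  have hz := h.hz
  have hbz : b * z < b := by nlinarith [hz.2]
  have hR : R z = sc (X z) * (z - lo4 (X z)) := rfl
  have hI := (X_iff hz (X z)).1 rfl
  have hmid : 2 / b ≤ z → b * z - ((2 : ℕ) : ℝ) ∈ Ico (0 : ℝ) 1 := by
    intro h1
    rw [div_le_iff₀ hb0] at h1
    push_cast
    exact ⟨by linarith, by linarith [b_lt]⟩
  have h6 : 0 < 1 / b ^ 2 := by positivity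
  have hcase : X z = 0 ∨ X z = 1 ∨ X z = 2 ∨ X z = 3 := by
    generalize X z = a
    fin_cases a <;> simp
  rcases hcase with h0 | h0 | h0 | h0
  · left
    refine ⟨h0, ?_⟩
    rw [hR, h0]
    show b * (z - 0) = _
    push_cast; ring
  · right; left
    refine ⟨h0, ?_⟩
    rw [hR, h0]
    show b * (z - 1 / b) = _
    push_cast
    rw [mul_sub, mul_one_div_cancel hb0.ne']
  · right; right; left
    rw [h0] at hI
    have h1 : 2 / b ≤ z := hI.1
    refine ⟨h0, hmid h1, ?_⟩
    rw [hR, h0]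
    show b ^ 2 * (z - 2 / b) = _
    push_cast
    field_simp
    ring
  · right; right; right
    rw [h0] at hI
    have h1 : 2 / b + 1 / b ^ 2 ≤ z := hI.1
    refine ⟨h0, hmid (by linarith), ?_⟩
    rw [hR, h0]
    show b ^ 2 * (z - (2 / b + 1 / b ^ 2)) = _
    push_cast
    field_simp
    ring

/-- the counting inequality -/
lemma count_ge (k : ℕ) {z x : ℝ} {ε : ℕ → ℕ} (h : St z x ε) (j : ℕ) :
    (∃ x', St (R^[j] z) x' (tl (nl z j) ε)) ∧ vis k z j ≤ cnt ε 1 (nl z j) := by
  classical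
  induction j with
  | zero =>
    refine ⟨⟨x, ?_⟩, by simp [vis]⟩
    have : tl (nl z 0) ε = ε := by
      funext i
      show ε (0 + i) = ε i
      rw [zero_add]
    rw [this]
    exact h
  | succ j ih =>
    obtain ⟨⟨x', hs⟩, hc⟩ := ih
    have hv : vis k z (j + 1) = vis k z j + if R^[j] z ∈ G k then 1 else 0 := by
      unfold vis
      rw [Finset.sum_range_succ]
    have hn : nl z (j + 1) = nl z j + len (X (R^[j] z)) := rfl
    have hit : R^[j + 1] z = R (R^[j] z) := Function.iterate_succ_apply' R j z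
    rw [hv, hn, hit]
    set w := R^[j] z with hw
    set n := nl z j with hnn
    have hcm := cnt_mono ε 1
    rcases letter hs with ⟨a1, a2⟩ | ⟨a1, a2⟩ | ⟨a1, a2, a3⟩ | ⟨a1, a2, a3⟩
    · have hl : len (X w) = 1 := by rw [a1]; rfl
      have hG : w ∉ G k := by
        rintro ⟨h1, -⟩
        have h2 : X w = 1 ∨ X w = 3 := h1
        rw [a1] at h2
        rcases h2 with h2 | h2 <;> exact absurd h2 (by decide)
      rw [hl, if_neg hG, add_zero]
      have hz' := R_mem hs.hz
      rw [a2] at hz' ⊢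
      have h1 := (hs.step (by norm_num) hz').1
      rw [tl_tl] at h1
      exact ⟨⟨_, h1⟩, hc.trans (hcm (by omega))⟩
    · have hl : len (X w) = 1 := by rw [a1]; rfl
      rw [hl]
      have hz' := R_mem hs.hz
      rw [a2] at hz'
      have h1 := (hs.step (by norm_num) hz').1
      rw [tl_tl] at h1
      refine ⟨⟨_, by rw [a2]; exact h1⟩, ?_⟩
      rw [cnt_succ]
      by_cases hG : w ∈ G k
      · rw [if_pos hG]
        have h2 : R w ∉ E k := hG.2
        rw [a2] at h2
        have h3 := one_of hs hz' h2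
        have h4 : ε n = 1 := by
          have : tl n ε 0 = ε n := by show ε (n + 0) = ε n; rw [add_zero]
          rw [← this]; exact h3
        rw [if_pos h4]
        omega
      · rw [if_neg hG]
        omega
    · have hl : len (X w) = 2 := by rw [a1]; rfl
      have hG : w ∉ G k := by
        rintro ⟨h1, -⟩
        have h2 : X w = 1 ∨ X w = 3 := h1
        rw [a1] at h2
        rcases h2 with h2 | h2 <;> exact absurd h2 (by decide)
      rw [hl, if_neg hG, add_zero]
      have hz' := R_mem hs.hz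
      rw [a3] at hz' ⊢
      have h1 := (hs.step (by norm_num) a2).1
      have h2 := (h1.step (by norm_num) hz').1
      rw [tl_tl, tl_tl] at h2
      exact ⟨⟨_, h2⟩, hc.trans (hcm (by omega))⟩
    · have hl : len (X w) = 2 := by rw [a1]; rfl
      rw [hl]
      have hz' := R_mem hs.hz
      rw [a3] at hz'
      have h1 := (hs.step (by norm_num) a2).1
      have h2 := (h1.step (by norm_num) hz').1
      rw [tl_tl, tl_tl] at h2
      refine ⟨⟨_, by rw [a3]; exact h2⟩, ?_⟩
      rw [show n + 2 = (n + 1) + 1 from rfl, cnt_succ]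
      have hm1 := hcm (show n ≤ n + 1 by omega)
      by_cases hG : w ∈ G k
      · rw [if_pos hG]
        have h3 : R w ∉ E k := hG.2
        rw [a3] at h3
        have h4 := one_of h1 hz' h3
        have h5 : ε (n + 1) = 1 := by
          have : tl 1 (tl n ε) 0 = ε (n + 1) := rfl
          rw [← this]; exact h4
        rw [if_pos h5]
        omega
      · rw [if_neg hG]
        omega

end

end Pool.Agent.V11111.BG
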