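import Pool.Agent.V11111.BE.Sys

open MeasureTheory Set Filter Topology
open scoped ENNReal

namespace Pool.Agent.V11111.BG

open Pool.Agent.V11111.BE

noncomputable section

/-- the base -/
def b : ℝ := 1 + √3

lemma b_sq : b ^ 2 = 2 * b + 2 := by
  have h : √3 * √3 = 3 := Real.mul_self_sqrt (by norm_num)
  unfold b
  nlinarith

lemma b_gt : 2.73 < b := by
  have h : (1.73 : ℝ) < √3 := Real.lt_sqrt_of_sq_lt (by norm_num)
  unfold b; linarith

lemma b_lt : b < 2.74 := by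
  have h : √3 < (1.74 : ℝ) := (Real.sqrt_lt' (by norm_num)).2 (by norm_num)
  unfold b; linarith

lemma b_pos : 0 < b := by linarith [b_gt]

/-- left ends -/
def lo4 : Fin 4 → ℝ := ![0, 1 / b, 2 / b, 2 / b + 1 / b ^ 2]

/-- scales -/
def sc : Fin 4 → ℝ := ![b, b, b ^ 2, b ^ 2]

/-- lengths -/
def len : Fin 4 → ℕ := ![1, 1, 2, 2]

/-- the letter -/
def X (z : ℝ) : Fin 4 :=
  if z < 1 / b then 0 else if z < 2 / b then 1 else if z < 2 / b + 1 / b ^ 2 then 2 else 3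

/-- the map -/
def R (z : ℝ) : ℝ := sc (X z) * (z - lo4 (X z))

/-- the measure -/
abbrev P : Measure ℝ := volume.restrict (Ico 0 1)

instance : IsProbabilityMeasure P := by
  constructor
  rw [Measure.restrict_apply_univ, Real.volume_Ico]
  norm_num

lemma X_meas : Measurable X := by
  unfold X
  refine Measurable.ite measurableSet_Iio measurable_const ?_
  refine Measurable.ite measurableSet_Iio measurable_const ?_
  exact Measurable.ite measurableSet_Iio measurable_const measurable_const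

lemma R_meas : Measurable R := by
  unfold R
  have h1 : Measurable fun z => sc (X z) := (measurable_of_countable sc).comp X_meas
  have h2 : Measurable fun z => lo4 (X z) := (measurable_of_countable lo4).comp X_meas
  exact h1.mul (measurable_id.sub h2)

lemma sc_pos (a : Fin 4) : 0 < sc a := by
  have := b_pos
  fin_cases a <;> simp [sc] <;> positivity

lemma ends : 1 / b < 2 / b ∧ 2 / b < 2 / b + 1 / b ^ 2 ∧ 2 / b + 1 / b ^ 2 < 1 ∧
    2 / b + 1 / b ^ 2 + 1 / b ^ 2 = 1 := by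
  have hb := b_pos
  have h1 : 2 / b + 1 / b ^ 2 + 1 / b ^ 2 = 1 := by
    field_simp
    linarith [b_sq]
  have h2 : 0 < 1 / b := by positivity
  have h3 : 0 < 1 / b ^ 2 := by positivity
  have h4 : 2 / b = 1 / b + 1 / b := by ring
  refine ⟨by linarith, by linarith, by linarith, h1⟩

lemma X_iff {z : ℝ} (hz : z ∈ Ico (0 : ℝ) 1) (a : Fin 4) :
    X z = a ↔ z ∈ Ico (lo4 a) (lo4 a + 1 / sc a) := by
  obtain ⟨e1, e2, e3, e4⟩ := ends
  have hb := b_pos
  have h4 : 2 / b = 1 / b + 1 / b := by ring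
  have h5 : 0 < 1 / b := by positivity
  have l0 : lo4 0 = 0 := rfl
  have l1 : lo4 1 = 1 / b := rfl
  have l2 : lo4 2 = 2 / b := rfl
  have l3 : lo4 3 = 2 / b + 1 / b ^ 2 := rfl
  have s0 : sc 0 = b := rfl
  have s1 : sc 1 = b := rfl
  have s2 : sc 2 = b ^ 2 := rfl
  have s3 : sc 3 = b ^ 2 := rfl
  have hz0 := hz.1
  have hz1 := hz.2
  unfold X
  fin_cases a
  · show _ = (0 : Fin 4) ↔ z ∈ Ico (lo4 0) (lo4 0 + 1 / sc 0)
    rw [l0, s0, mem_Ico]
    split_ifs with h1 h2 h3 <;> simp <;> first | exact ⟨hz0, by simpa using h1⟩ | (intro _; simpa using h1)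
  · show _ = (1 : Fin 4) ↔ z ∈ Ico (lo4 1) (lo4 1 + 1 / sc 1)
    rw [l1, s1, mem_Ico, ← h4]
    split_ifs with h1 h2 h3 <;> simp only [true_iff, iff_true, iff_false, false_iff, not_and, not_lt, Fin.reduceEq] <;>
      first | (exact ⟨by linarith, by linarith⟩) | (intro _; linarith)
  · show _ = (2 : Fin 4) ↔ z ∈ Ico (lo4 2) (lo4 2 + 1 / sc 2)
    rw [l2, s2, mem_Ico]
    split_ifs with h1 h2 h3 <;> simp only [true_iff, iff_true, iff_false, false_iff, not_and, not_lt, Fin.reduceEq] <;>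
      first | (exact ⟨by linarith, by linarith⟩) | (intro _; linarith)
  · show _ = (3 : Fin 4) ↔ z ∈ Ico (lo4 3) (lo4 3 + 1 / sc 3)
    rw [l3, s3, mem_Ico]
    split_ifs with h1 h2 h3 <;> simp only [true_iff, iff_true, iff_false, false_iff, not_and, not_lt, Fin.reduceEq] <;>
      first | (exact ⟨by linarith, by linarith⟩) | (intro _; linarith)

lemma R_mem {z : ℝ} (hz : z ∈ Ico (0 : ℝ) 1) : R z ∈ Ico (0 : ℝ) 1 := by
  have h := (X_iff hz (X z)).1 rfl
  have hs := sc_pos (X z)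
  unfold R
  constructor
  · exact mul_nonneg hs.le (by linarith [h.1])
  · have h1 : z - lo4 (X z) < 1 / sc (X z) := by linarith [h.2]
    rw [lt_div_iff₀ hs] at h1
    linarith

lemma lo4_nn (a : Fin 4) : 0 ≤ lo4 a ∧ lo4 a + 1 / sc a ≤ 1 := by
  obtain ⟨e1, e2, e3, e4⟩ := ends
  have hb := b_pos
  have h4 : 2 / b = 1 / b + 1 / b := by ring
  have h5 : 0 < 1 / b := by positivity
  have h6 : 0 < 1 / b ^ 2 := by positivity
  fin_cases a
  · show 0 ≤ (0 : ℝ) ∧ 0 + 1 / b ≤ 1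
    constructor <;> linarith
  · show 0 ≤ 1 / b ∧ 1 / b + 1 / b ≤ 1
    constructor <;> linarith
  · show 0 ≤ 2 / b ∧ 2 / b + 1 / b ^ 2 ≤ 1
    constructor <;> linarith
  · show 0 ≤ 2 / b + 1 / b ^ 2 ∧ 2 / b + 1 / b ^ 2 + 1 / b ^ 2 ≤ 1
    constructor <;> linarith

/-- the probability of a letter -/
def q (a : Fin 4) : ℝ≥0∞ := ENNReal.ofReal (sc a)⁻¹

lemma key (a : Fin 4) (B : Set ℝ) (hB : MeasurableSet B) :
    P (X ⁻¹' {a} ∩ R ⁻¹' B) = q a * P B := by
  have hs := sc_pos a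
  rw [Measure.restrict_apply ((X_meas (MeasurableSet.singleton a)).inter (R_meas hB)),
    Measure.restrict_apply hB]
  have e : X ⁻¹' {a} ∩ R ⁻¹' B ∩ Ico 0 1 = (fun z => sc a * (z - lo4 a)) ⁻¹' (B ∩ Ico 0 1) := by
    ext z
    constructor
    · rintro ⟨⟨h1, h2⟩, h3⟩
      have h4 : X z = a := h1
      have h5 : R z ∈ B := h2
      have h6 := R_mem h3
      unfold R at h5 h6
      rw [h4] at h5 h6
      exact ⟨h5, h6⟩
    · rintro ⟨h1, h2⟩
      have h3 : 0 ≤ z - lo4 a := nonneg_of_mul_nonneg_right h2.1 hs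
      have h4 : z - lo4 a < 1 / sc a := by
        rw [lt_div_iff₀ hs, mul_comm]; exact h2.2
      obtain ⟨h5, h6⟩ := lo4_nn a
      have hz : z ∈ Ico (0 : ℝ) 1 := ⟨by linarith, by linarith⟩
      have hX : X z = a := (X_iff hz a).2 ⟨by linarith, by linarith⟩
      refine ⟨⟨hX, ?_⟩, hz⟩
      show R z ∈ B
      unfold R
      rw [hX]
      exact h1
  rw [e, ← Measure.map_apply (by fun_prop) (hB.inter measurableSet_Ico), map_affine hs,
    Measure.smul_apply]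
  rfl

lemma key_s (Q : Set (Fin 4)) {B : Set ℝ} (hB : MeasurableSet B) :
    P (X ⁻¹' Q ∩ R ⁻¹' B) = P (X ⁻¹' Q) * P B := key_set X_meas R_meas key Q hB

lemma mp : MeasurePreserving R P P := mpR X_meas R_meas key

/-- events depending on the first `N` letters -/
structure Dep (N : ℕ) (E : Set ℝ) : Prop where
  meas : MeasurableSet E
  fac : ∀ B, MeasurableSet B → P (E ∩ R^[N] ⁻¹' B) = P E * P B

lemma dep_univ : Dep 0 univ := by
  refine ⟨MeasurableSet.univ, fun B _ => ?_⟩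
  rw [univ_inter, measure_univ, one_mul]
  rfl

lemma iter_meas (N : ℕ) : Measurable R^[N] := (mp.iterate N).measurable

lemma iter_P (N : ℕ) {B : Set ℝ} (hB : MeasurableSet B) : P (R^[N] ⁻¹' B) = P B :=
  (mp.iterate N).measure_preimage hB.nullMeasurableSet

lemma Dep.compl {N : ℕ} {E : Set ℝ} (h : Dep N E) : Dep N Eᶜ := by
  refine ⟨h.meas.compl, fun B hB => ?_⟩
  have h1 : P (E ∩ R^[N] ⁻¹' B) + P (Eᶜ ∩ R^[N] ⁻¹' B) = P B := by
    rw [← iter_P N hB, inter_comm E, inter_comm Eᶜ]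
    exact measure_inter_add_sdiff _ h.meas
  have h2 : P E + P Eᶜ = 1 := by rw [measure_add_measure_compl h.meas, measure_univ]
  rw [h.fac B hB] at h1
  have h3 : P E * P B + P Eᶜ * P B = P B := by rw [← add_mul, h2, one_mul]
  have h4 : P E * P B ≠ ⊤ := ENNReal.mul_ne_top (measure_ne_top _ _) (measure_ne_top _ _)
  exact (ENNReal.add_right_inj h4).1 (h1.trans h3.symm)

lemma Dep.cons {N : ℕ} {E : Set ℝ} (h : Dep N E) (Q : Set (Fin 4)) :
    Dep (N + 1) (X ⁻¹' Q ∩ R ⁻¹' E) := by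
  refine ⟨(X_meas (MeasurableSpace.measurableSet_top)).inter (R_meas h.meas), fun B hB => ?_⟩
  have e : X ⁻¹' Q ∩ R ⁻¹' E ∩ R^[N + 1] ⁻¹' B = X ⁻¹' Q ∩ R ⁻¹' (E ∩ R^[N] ⁻¹' B) := by
    ext z
    simp only [mem_inter_iff, mem_preimage, Function.iterate_succ_apply]
    tauto
  rw [e, key_s Q (h.meas.inter (iter_meas N hB)), h.fac B hB, key_s Q h.meas, mul_assoc]

/-- useful or undetermined continuations -/
def E : ℕ → Set ℝ
  | 0 => univ
  | k + 1 => X ⁻¹' {0} ∩ R ⁻¹' ((X ⁻¹' {0} ∩ R ⁻¹' univ) ∪ (X ⁻¹' {1} ∩ R ⁻¹' (E k)))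

lemma disj01 (U V : Set ℝ) : Disjoint (X ⁻¹' {0} ∩ U) (X ⁻¹' {1} ∩ V) := by
  rw [Set.disjoint_left]
  rintro z ⟨h1, -⟩ ⟨h2, -⟩
  have h3 : X z = 0 := h1
  have h4 : X z = 1 := h2
  rw [h3] at h4
  exact absurd h4 (by decide)

lemma Dep.mid {N : ℕ} {E : Set ℝ} (h : Dep N E) :
    Dep (N + 1) ((X ⁻¹' {0} ∩ R ⁻¹' univ) ∪ (X ⁻¹' {1} ∩ R ⁻¹' E)) := by
  have m0 : MeasurableSet (X ⁻¹' ({0} : Set (Fin 4)) ∩ R ⁻¹' univ) :=
    (X_meas (MeasurableSpace.measurableSet_top)).inter (R_meas MeasurableSet.univ)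
  have m1 : MeasurableSet (X ⁻¹' ({1} : Set (Fin 4)) ∩ R ⁻¹' E) :=
    (X_meas (MeasurableSpace.measurableSet_top)).inter (R_meas h.meas)
  refine ⟨m0.union m1, fun B hB => ?_⟩
  have hN := iter_meas (N + 1) hB
  have h0 : P (X ⁻¹' ({0} : Set (Fin 4)) ∩ R ⁻¹' univ ∩ R^[N + 1] ⁻¹' B)
      = P (X ⁻¹' ({0} : Set (Fin 4)) ∩ R ⁻¹' univ) * P B := by
    have e : X ⁻¹' ({0} : Set (Fin 4)) ∩ R ⁻¹' univ ∩ R^[N + 1] ⁻¹' B
        = X ⁻¹' {0} ∩ R ⁻¹' (R^[N] ⁻¹' B) := by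
      ext z
      simp only [mem_inter_iff, mem_preimage, Function.iterate_succ_apply, mem_univ, and_true]
    rw [e, key_s _ (iter_meas N hB), iter_P N hB, key_s _ MeasurableSet.univ, measure_univ,
      mul_one]
  have h1 := (h.cons {1}).fac B hB
  rw [union_inter_distrib_right, measure_union _ (m1.inter hN), measure_union _ m1, h0, h1,
    add_mul]
  · exact disj01 _ _
  · exact (disj01 (R ⁻¹' univ) (R ⁻¹' E)).mono inter_subset_left inter_subset_left

lemma dep_E (k : ℕ) : Dep (2 * k) (E k) := by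
  induction k with
  | zero => exact dep_univ
  | succ k ih => exact ih.mid.cons {0}

lemma P_X (a : Fin 4) : P (X ⁻¹' {a}) = q a := by
  have h := key a univ MeasurableSet.univ
  rwa [preimage_univ, inter_univ, measure_univ, mul_one] at h

lemma P_E (k : ℕ) : P (E (k + 1)) = q 0 * (q 0 + q 1 * P (E k)) := by
  show P (X ⁻¹' {0} ∩ R ⁻¹' ((X ⁻¹' {0} ∩ R ⁻¹' univ) ∪ (X ⁻¹' {1} ∩ R ⁻¹' (E k)))) = _
  rw [key 0 _ (dep_E k).mid.meas, measure_union (disj01 _ _) ((dep_E k).cons {1}).meas,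
    key 0 _ MeasurableSet.univ, key 1 _ (dep_E k).meas, measure_univ, mul_one]

/-- ones that stay ones in every expansion -/
def G (k : ℕ) : Set ℝ := X ⁻¹' {1, 3} ∩ R ⁻¹' (E k)ᶜ

lemma dep_G (k : ℕ) : Dep (2 * k + 1) (G k) := (dep_E k).compl.cons {1, 3}

/-- `1 / b` -/
def p : ℝ := b⁻¹

lemma p_sq : p ^ 2 = 1 - √3 / 2 ∧ p = (√3 - 1) / 2 := by
  have h : √3 * √3 = 3 := Real.mul_self_sqrt (by norm_num)
  have h1 : p = (√3 - 1) / 2 := by
    unfold p b
    apply inv_eq_of_mul_eq_one_right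
    nlinarith
  refine ⟨?_, h1⟩
  rw [h1]
  nlinarith

lemma q_real : (q 0).toReal = p ∧ (q 1).toReal = p ∧ (q 2).toReal = p ^ 2 ∧
    (q 3).toReal = p ^ 2 := by
  have hb := b_pos
  refine ⟨?_, ?_, ?_, ?_⟩
  · exact ENNReal.toReal_ofReal (inv_nonneg.2 hb.le)
  · exact ENNReal.toReal_ofReal (inv_nonneg.2 hb.le)
  · have : (q 2).toReal = (b ^ 2)⁻¹ := ENNReal.toReal_ofReal (inv_nonneg.2 (pow_nonneg hb.le 2))
    rw [this, p, inv_pow]
  · have : (q 3).toReal = (b ^ 2)⁻¹ := ENNReal.toReal_ofReal (inv_nonneg.2 (pow_nonneg hb.le 2))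
    rw [this, p, inv_pow]

/-- real probability of `E k` -/
def t (k : ℕ) : ℝ := (P (E k)).toReal

lemma t_zero : t 0 = 1 := by
  show (P univ).toReal = 1
  rw [measure_univ]; rfl

lemma q_ne (a : Fin 4) : q a ≠ ⊤ := ENNReal.ofReal_ne_top

lemma t_succ (k : ℕ) : t (k + 1) = p * (p + p * t k) := by
  unfold t
  obtain ⟨h0, h1, -, -⟩ := q_real
  rw [P_E, ENNReal.toReal_mul, ENNReal.toReal_add (q_ne _)
    (ENNReal.mul_ne_top (q_ne _) (measure_ne_top _ _)), ENNReal.toReal_mul, h0, h1]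

lemma p_bd : 0 < p ∧ p ^ 2 < 1 / 2 := by
  have h := p_sq.1
  have h2 : (1.73 : ℝ) < √3 := Real.lt_sqrt_of_sq_lt (by norm_num)
  refine ⟨inv_pos.2 b_pos, by rw [h]; linarith⟩

lemma t_lim : Tendsto t atTop (𝓝 (p ^ 2 / (1 - p ^ 2))) := by
  obtain ⟨hp, hp2⟩ := p_bd
  have hne : 1 - p ^ 2 ≠ 0 := by linarith
  set L := p ^ 2 / (1 - p ^ 2) with hL
  have hfix : L = p * (p + p * L) := by
    rw [hL]; field_simp; ring
  have h1 : ∀ k, t k = L + (p ^ 2) ^ k * (1 - L) := by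
    intro k
    induction k with
    | zero => rw [t_zero]; ring
    | succ k ih =>
      rw [t_succ, ih, pow_succ]
      linear_combination -hfix
  have h2 : Tendsto (fun k : ℕ => L + (p ^ 2) ^ k * (1 - L)) atTop (𝓝 (L + 0 * (1 - L))) := by
    apply Tendsto.const_add
    apply Tendsto.mul_const
    exact tendsto_pow_atTop_nhds_zero_of_lt_one (by positivity) (by linarith)
  rw [zero_mul, add_zero] at h2
  exact h2.congr fun k => (h1 k).symm

lemma P_G (k : ℕ) : (P (G k)).toReal = (p + p ^ 2) * (1 - t k) := by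
  obtain ⟨-, h1, -, h3⟩ := q_real
  have e : P (X ⁻¹' ({1, 3} : Set (Fin 4))) = q 1 + q 3 := by
    have e1 : X ⁻¹' ({1, 3} : Set (Fin 4)) = X ⁻¹' {1} ∪ X ⁻¹' {3} := by
      ext z; simp
    rw [e1, measure_union _ (X_meas (MeasurableSet.singleton _)), P_X, P_X]
    rw [Set.disjoint_left]
    intro z h4 h5
    have h6 : X z = 1 := h4
    have h7 : X z = 3 := h5
    rw [h6] at h7
    exact absurd h7 (by decide)
  have e2 : P (E k)ᶜ = 1 - P (E k) := by
    rw [measure_compl (dep_E k).meas (measure_ne_top _ _), measure_univ]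
  unfold G
  rw [key_s _ (dep_E k).meas.compl, e, e2, ENNReal.toReal_mul,
    ENNReal.toReal_add (q_ne _) (q_ne _), h1, h3, ENNReal.toReal_sub_of_le prob_le_one (by simp)]
  rfl

end

end Pool.Agent.V11111.BG
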